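import Pool.Agent.H72.CH.Targets
import Pool.Agent.H44.FB.Basics

/-! NPT: paths of names (board chl_modules, MP_6ab439_lc). -/

set_option autoImplicit false

namespace Pool.Agent.H46.CH2

open Pool.Agent.H68.BP Pool.Agent.H58.SF Pool.Agent.H53.NR
open Pool.Agent.H57.AR (tp ty Ty)
open Pool.Agent.H44.KR (HB Amg TpOn Rz LcN)
open Pool.Agent.H44.FB
open Pool.Agent.H72.CH
open Function
open Classical

namespace NPT

variable {N : Type} {δ : Sig} {m : ℕ} {st : N → Fin m}

/-- a flag has a partner such that the pair has the type of a given pair -/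
theorem ext_flag {𝔻 : Str δ N} (hB : HB 𝔻)
    (hty : ∀ p q : N, ty 𝔻 p = ty 𝔻 q ↔ st p = st q)
    (hfl : ∀ w w' : Fl st, tp 𝔻 w.1 = tp 𝔻 w'.1) (a b y : Fl st) :
    ∃ v : Fl st, tp 𝔻 (Sum.elim y.1 v.1) = tp 𝔻 (Sum.elim a.1 b.1) := by
  have h0 : TpOn 𝔻 (Set.range (Sum.inl : Fin m → Fin m ⊕ Fin m)) (Sum.elim a.1 b.1)
      (Sum.elim y.1 y.1) := by
    refine ⟨?_, ?_⟩
    · rintro _ ⟨i, rfl⟩ _ ⟨j, rfl⟩
      exact eq_of_tp (hfl a y) i j
    · intro l z hz
      choose z' hz' using hz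
      have e1 : (fun i => Sum.elim a.1 b.1 (z i)) = fun i => a.1 (z' i) :=
        funext fun i => by rw [← hz' i]; rfl
      have e2 : (fun i => Sum.elim y.1 y.1 (z i)) = fun i => y.1 (z' i) :=
        funext fun i => by rw [← hz' i]; rfl
      rw [e1, e2]
      exact rel_of_tp (hfl a y) l z'
  obtain ⟨x', h1, h2, -⟩ := hB.amg (Fin m ⊕ Fin m) (Set.range Sum.inl) (Sum.elim a.1 b.1)
    (Sum.elim y.1 y.1) ∅ h0
  have h3 : ∀ i, st (x' (Sum.inr i)) = i := fun i => by
    have h4 : ty 𝔻 (x' (Sum.inr i)) = ty 𝔻 (b.1 i) := ty_of_tp h1 (Sum.inr i)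
    rw [hty] at h4
    rw [h4]
    exact b.2 i
  refine ⟨⟨fun i => x' (Sum.inr i), h3⟩, ?_⟩
  rw [← h1]
  congr 1
  funext q
  rcases q with i | i
  · exact (h2 _ ⟨i, rfl⟩).symm
  · rfl

section vars

variable (Qf : Finset N) (L : ℕ)

/-- the variables -/
abbrev Wt (N : Type) (m : ℕ) (Qf : Finset N) (L : ℕ) : Type :=
  {p : N // p ∈ Qf} ⊕ (Fin (L + 1) × Fin m) ⊕ (Fin L × Fin m)

/-- the sorts of the variables -/
def srt (st : N → Fin m) (Qf : Finset N) (L : ℕ) : Wt N m Qf L → Fin m :=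
  Sum.elim (fun p => st p.1) (Sum.elim Prod.snd Prod.snd)

variable {Qf}

/-- the variables of the flags `x k` -/
def Xv (c d : Fin m → N) (hc : ∀ i, c i ∈ Qf) (hd : ∀ i, d i ∈ Qf) (l : ℕ) (k : Fin (L + 1))
    (i : Fin m) : Wt N m Qf L :=
  if (k : ℕ) = 0 ∨ (i : ℕ) < l then Sum.inl ⟨c i, hc i⟩
  else if (k : ℕ) = L then Sum.inl ⟨d i, hd i⟩ else Sum.inr (Sum.inl (k, i))

/-- the variables of the flags `v k` -/
def Vv (c : Fin m → N) (hc : ∀ i, c i ∈ Qf) (l : ℕ) (k : Fin L) (i : Fin m) : Wt N m Qf L :=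
  if (i : ℕ) < l then Sum.inl ⟨c i, hc i⟩ else Sum.inr (Sum.inr (k, i))

/-- the ends of the step `k` -/
def kk (ε : Bool) (k : Fin L) : Fin (L + 1) := if ε then k.succ else k.castSucc

/-- the variables of a block -/
def ev (c d : Fin m → N) (hc : ∀ i, c i ∈ Qf) (hd : ∀ i, d i ∈ Qf) (l : ℕ) (ε : Bool)
    (k : Fin L) : Fin m ⊕ Fin m → Wt N m Qf L :=
  Sum.elim (Xv L c d hc hd l (kk L ε k)) (Vv L c hc l k)

/-- the names which give the structure of a block -/
noncomputable def gm (st : N → Fin m) (a b c : Fin m → N) (hc : ∀ i, c i ∈ Qf) (l : ℕ)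
    (k : Fin L) (w : Wt N m Qf L) : N :=
  if ∃ i, w = Vv L c hc l k i then b (srt st Qf L w) else a (srt st Qf L w)

variable (c d : Fl st) (hc : ∀ i, c.1 i ∈ Qf) (hd : ∀ i, d.1 i ∈ Qf) (l : ℕ)

theorem srt_Xv (k : Fin (L + 1)) (i : Fin m) :
    srt st Qf L (Xv L c.1 d.1 hc hd l k i) = i := by
  unfold Xv srt
  split_ifs
  · exact c.2 i
  · exact d.2 i
  · rfl

theorem srt_Vv (k : Fin L) (i : Fin m) : srt st Qf L (Vv L c.1 hc l k i) = i := by
  unfold Vv srt
  split_ifs
  · exact c.2 i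
  · rfl

theorem Xv_eq_Vv {k : Fin (L + 1)} {k' : Fin L} {i i' : Fin m}
    (h : Xv L c.1 d.1 hc hd l k i = Vv L c.1 hc l k' i') : i = i' ∧ (i : ℕ) < l := by
  have h1 := srt_Xv L c d hc hd l k i
  rw [h, srt_Vv] at h1
  subst h1
  refine ⟨rfl, ?_⟩
  by_contra hl
  unfold Xv Vv at h
  rw [if_neg hl] at h
  split_ifs at h <;> simp at h

variable (a b : Fl st) (hab : ∀ i : Fin m, a.1 i = b.1 i ↔ (i : ℕ) < l)

include hab

theorem gm_ev (ε : Bool) (k : Fin L) (q : Fin m ⊕ Fin m) :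
    gm L st a.1 b.1 c.1 hc l k (ev L c.1 d.1 hc hd l ε k q) = Sum.elim a.1 b.1 q := by
  rcases q with i | i
  · show gm L st a.1 b.1 c.1 hc l k (Xv L c.1 d.1 hc hd l (kk L ε k) i) = a.1 i
    unfold gm
    split_ifs with h
    · obtain ⟨i', h'⟩ := h
      rw [srt_Xv]
      exact ((hab i).2 (Xv_eq_Vv L c d hc hd l h').2).symm
    · rw [srt_Xv]
  · show gm L st a.1 b.1 c.1 hc l k (Vv L c.1 hc l k i) = b.1 i
    unfold gm
    rw [if_pos ⟨i, rfl⟩, srt_Vv]

theorem ev_eq (ε : Bool) (k : Fin L) (q q' : Fin m ⊕ Fin m) :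
    ev L c.1 d.1 hc hd l ε k q = ev L c.1 d.1 hc hd l ε k q' ↔
      Sum.elim a.1 b.1 q = Sum.elim a.1 b.1 q' := by
  refine ⟨fun h => ?_, fun h => ?_⟩
  · rw [← gm_ev L c d hc hd l a b hab ε k q, ← gm_ev L c d hc hd l a b hab ε k q', h]
  · have hx : ∀ i i' : Fin m, a.1 i = b.1 i' →
        Xv L c.1 d.1 hc hd l (kk L ε k) i = Vv L c.1 hc l k i' := by
      intro i i' h
      have h1 : i = i' := by rw [← a.2 i, ← b.2 i', h]
      subst h1
      have h2 := (hab i).1 h
      unfold Xv Vv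
      rw [if_pos (Or.inr h2), if_pos h2]
    rcases q with i | i <;> rcases q' with j | j
    · have h1 : i = j := by
        have h2 : a.1 i = a.1 j := h
        rw [← a.2 i, ← a.2 j, h2]
      rw [h1]
    · exact hx i j h
    · exact (hx j i h.symm).symm
    · have h1 : i = j := by
        have h2 : b.1 i = b.1 j := h
        rw [← b.2 i, ← b.2 j, h2]
      rw [h1]

/-- a map with the type of `(a, b)` on the block realizes the block -/
theorem rz_of_tp {𝔻 : Str δ N} (ε : Bool) (k : Fin L) (f : Wt N m Qf L → N)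
    (h : tp 𝔻 (fun q => f (ev L c.1 d.1 hc hd l ε k q)) = tp 𝔻 (Sum.elim a.1 b.1)) :
    Rz 𝔻 id (fun l' z => 𝔻 l' (fun i => gm L st a.1 b.1 c.1 hc l k (z i)))
      (Set.range (ev L c.1 d.1 hc hd l ε k)) f := by
  refine ⟨?_, ?_⟩
  · rintro _ ⟨q, rfl⟩ _ ⟨q', rfl⟩ hq
    show ev L c.1 d.1 hc hd l ε k q = ev L c.1 d.1 hc hd l ε k q'
    rw [ev_eq L c d hc hd l a b hab]
    exact (eq_of_tp h q q').1 hq
  · intro l' z hz
    choose z' hz' using hz
    have e1 : (fun i => f (z i)) = fun i => f (ev L c.1 d.1 hc hd l ε k (z' i)) :=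
      funext fun i => by rw [hz' i]
    have e2 : (fun i => gm L st a.1 b.1 c.1 hc l k (id (z i))) =
        fun i => Sum.elim a.1 b.1 (z' i) :=
      funext fun i => by rw [id, ← hz' i, gm_ev L c d hc hd l a b hab]
    rw [e1]
    show _ ↔ 𝔻 l' (fun i => gm L st a.1 b.1 c.1 hc l k (id (z i)))
    rw [e2]
    exact rel_of_tp h l' z'

/-- conversely -/
theorem tp_of_rz {𝔻 : Str δ N} (ε : Bool) (k : Fin L) (f : Wt N m Qf L → N)
    (h : Rz 𝔻 id (fun l' z => 𝔻 l' (fun i => gm L st a.1 b.1 c.1 hc l k (z i)))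
      (Set.range (ev L c.1 d.1 hc hd l ε k)) f) :
    tp 𝔻 (fun q => f (ev L c.1 d.1 hc hd l ε k q)) = tp 𝔻 (Sum.elim a.1 b.1) := by
  refine tp_of_tpOn (A := Set.univ) ⟨fun q _ q' _ => ?_, fun l' z _ => ?_⟩ fun _ => trivial
  · rw [← ev_eq L c d hc hd l a b hab ε k]
    exact ⟨fun hq => h.1 _ ⟨q, rfl⟩ _ ⟨q', rfl⟩ hq, fun hq => congrArg f hq⟩
  · refine (h.2 l' (fun i => ev L c.1 d.1 hc hd l ε k (z i)) fun i => ⟨z i, rfl⟩).trans ?_
    show 𝔻 l' (fun i => gm L st a.1 b.1 c.1 hc l k (ev L c.1 d.1 hc hd l ε k (z i))) ↔ _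
    have e2 : (fun i => gm L st a.1 b.1 c.1 hc l k (ev L c.1 d.1 hc hd l ε k (z i))) =
        fun i => Sum.elim a.1 b.1 (z i) := funext fun i => gm_ev L c d hc hd l a b hab ε k (z i)
    rw [e2]

end vars

end NPT

open NPT in
theorem pf_NPT : T_NPT := by
  intro N δ 𝔻 m st hFRE hB hty hfl K hLc L hKL l a b c d F hlm hab hcd
  have hL0 : 0 < L := by omega
  obtain ⟨n₀⟩ := hB.ne
  set Qf : Finset N := Finset.univ.image c.1 ∪ Finset.univ.image d.1 with hQf
  have hc : ∀ i, c.1 i ∈ Qf := fun i =>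
    Finset.mem_union_left _ (Finset.mem_image_of_mem _ (Finset.mem_univ i))
  have hd : ∀ i, d.1 i ∈ Qf := fun i =>
    Finset.mem_union_right _ (Finset.mem_image_of_mem _ (Finset.mem_univ i))
  obtain ⟨vc, hvc⟩ := ext_flag hB hty hfl a b c
  obtain ⟨vd, hvd⟩ := ext_flag hB hty hfl a b d
  have hvc' : ∀ i : Fin m, (i : ℕ) < l → vc.1 i = c.1 i := fun i hi =>
    ((eq_of_tp hvc (Sum.inl i) (Sum.inr i)).2 ((hab i).2 hi)).symm
  have hvd' : ∀ i : Fin m, (i : ℕ) < l → vd.1 i = d.1 i := fun i hi =>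
    ((eq_of_tp hvd (Sum.inl i) (Sum.inr i)).2 ((hab i).2 hi)).symm
  set val : Wt N m Qf L → N := Sum.elim (fun p => p.1) (fun _ => n₀) with hval
  set s : (Bool × Fin L) ⊕ Unit → Set (Wt N m Qf L) :=
    Sum.elim (fun r => Set.range (ev L c.1 d.1 hc hd l r.1 r.2)) (fun _ => Set.range Sum.inl)
    with hs
  set S : (Bool × Fin L) ⊕ Unit → Str δ (Wt N m Qf L) :=
    Sum.elim (fun r => fun l' z => 𝔻 l' (fun i => gm L st a.1 b.1 c.1 hc l r.2 (z i)))
      (fun _ => fun l' z => 𝔻 l' (fun i => val (z i))) with hS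
  -- the local step
  have hloc : ∀ U : Finset (Wt N m Qf L), U.card ≤ K →
      ∃ f : Wt N m Qf L → N, ∀ r, Rz 𝔻 id (S r) {x | x ∈ s r ∧ x ∈ U} f := by
    intro U hU
    obtain ⟨k₀, hk₀⟩ : ∃ k₀ : Fin L, ∀ i, (Sum.inr (Sum.inr (k₀, i)) : Wt N m Qf L) ∉ U := by
      by_contra hcon
      push Not at hcon
      choose i hi using hcon
      have h1 : L ≤ U.card := by
        have h2 : (Finset.univ.image fun k : Fin L =>
            (Sum.inr (Sum.inr (k, i k)) : Wt N m Qf L)).card = L := by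
          rw [Finset.card_image_of_injective, Finset.card_univ, Fintype.card_fin]
          intro k k' h
          simp only [Sum.inr.injEq, Prod.mk.injEq] at h
          exact h.1
        calc L = _ := h2.symm
          _ ≤ U.card := Finset.card_le_card (by
            intro w hw
            obtain ⟨k, -, rfl⟩ := Finset.mem_image.1 hw
            exact hi k)
      omega
    set xx : Fin (L + 1) → Fl st := fun k => if (k : ℕ) ≤ k₀ then c else d with hxx
    set vv : Fin L → Fl st := fun k => if (k : ℕ) < k₀ then vc else vd with hvv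
    set f : Wt N m Qf L → N := Sum.elim (fun p => p.1)
      (Sum.elim (fun p => (xx p.1).1 p.2) (fun p => (vv p.1).1 p.2)) with hf
    have hfX : ∀ k i, f (Xv L c.1 d.1 hc hd l k i) = (xx k).1 i := by
      intro k i
      unfold Xv
      split_ifs with h1 h2
      · rcases h1 with h1 | h1
        · rw [hxx]
          simp only [hf, Sum.elim_inl]
          rw [if_pos (by omega)]
        · simp only [hf, Sum.elim_inl, hxx]
          split_ifs
          · rfl
          · exact hcd i h1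
      · simp only [hf, Sum.elim_inl, hxx]
        rw [if_neg (by have := k₀.2; omega)]
      · rfl
    have hfV : ∀ k i, k ≠ k₀ → f (Vv L c.1 hc l k i) = (vv k).1 i := by
      intro k i hk
      unfold Vv
      split_ifs with h1
      · simp only [hf, Sum.elim_inl, hvv]
        split_ifs
        · exact (hvc' i h1).symm
        · rw [hvd' i h1]
          exact hcd i h1
      · rfl
    refine ⟨f, ?_⟩
    rintro (⟨ε, k⟩ | ⟨⟩)
    · by_cases hk : k = k₀
      · subst hk
        have hmem : ∀ w, w ∈ s (Sum.inl (ε, k)) ∧ w ∈ U →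
            ∃ i, w = Xv L c.1 d.1 hc hd l (kk L ε k) i := by
          rintro w ⟨⟨q, rfl⟩, hw⟩
          rcases q with i | i
          · exact ⟨i, rfl⟩
          · refine ⟨i, ?_⟩
            by_cases hi : (i : ℕ) < l
            · show Vv L c.1 hc l k i = _
              unfold Vv Xv
              rw [if_pos hi, if_pos (Or.inr hi)]
            · exfalso
              refine hk₀ i ?_
              have h1 : ev L c.1 d.1 hc hd l ε k (Sum.inr i) = Sum.inr (Sum.inr (k, i)) := by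
                show Vv L c.1 hc l k i = _
                unfold Vv
                rw [if_neg hi]
              rw [← h1]
              exact hw
        refine ⟨?_, ?_⟩
        · intro w hw w' hw' h
          obtain ⟨i, rfl⟩ := hmem w hw
          obtain ⟨i', rfl⟩ := hmem w' hw'
          rw [hfX, hfX] at h
          have h1 : i = i' := by
            rw [← (xx (kk L ε k)).2 i, ← (xx (kk L ε k)).2 i', h]
          rw [h1]
        · intro l' z hz
          choose z' hz' using fun i => hmem (z i) (hz i)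
          have e1 : (fun i => f (z i)) = fun i => (xx (kk L ε k)).1 (z' i) :=
            funext fun i => by rw [hz' i, hfX]
          rw [e1]
          show _ ↔ 𝔻 l' (fun i => gm L st a.1 b.1 c.1 hc l k (z i))
          have e2 : (fun i => gm L st a.1 b.1 c.1 hc l k (z i)) = fun i => a.1 (z' i) :=
            funext fun i => by
              rw [hz' i]
              exact gm_ev L c d hc hd l a b hab ε k (Sum.inl (z' i))
          rw [e2]
          exact rel_of_tp (hfl _ a) l' z'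
      · have h1 := rz_of_tp L c d hc hd l a b hab (𝔻 := 𝔻) ε k f (by
          have e1 : (fun q => f (ev L c.1 d.1 hc hd l ε k q)) =
              Sum.elim (xx (kk L ε k)).1 (vv k).1 := by
            funext q
            rcases q with i | i
            · exact hfX _ i
            · exact hfV k i hk
          rw [e1]
          have hkv : (k : ℕ) ≠ k₀ := fun h => hk (Fin.ext h)
          by_cases hlt : (k : ℕ) < k₀
          · have e2 : xx (kk L ε k) = c := by
              simp only [hxx]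
              rw [if_pos]
              unfold kk
              cases ε
              · simp only [Bool.false_eq_true, if_false, Fin.val_castSucc]; omega
              · simp only [if_true, Fin.val_succ]; omega
            have e3 : vv k = vc := by
              simp only [hvv]
              rw [if_pos hlt]
            rw [e2, e3]
            exact hvc
          · have e2 : xx (kk L ε k) = d := by
              simp only [hxx]
              rw [if_neg]
              unfold kk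
              cases ε
              · simp only [Bool.false_eq_true, if_false, Fin.val_castSucc]; omega
              · simp only [if_true, Fin.val_succ]; omega
            have e3 : vv k = vd := by
              simp only [hvv]
              rw [if_neg hlt]
            rw [e2, e3]
            exact hvd)
        exact ⟨fun w hw w' hw' h => h1.1 w hw.1 w' hw'.1 h,
          fun l' z hz => h1.2 l' z fun i => (hz i).1⟩
    · refine ⟨?_, ?_⟩
      · rintro _ ⟨⟨p, rfl⟩, -⟩ _ ⟨⟨p', rfl⟩, -⟩ h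
        show (Sum.inl p : Wt N m Qf L) = Sum.inl p'
        rw [Subtype.ext (h : p.1 = p'.1)]
      · intro l' z hz
        have e1 : (fun i => f (z i)) = fun i => val (z i) := funext fun i => by
          obtain ⟨⟨p, hp⟩, -⟩ := hz i
          rw [← hp]
          rfl
        rw [e1]
        exact Iff.rfl
  obtain ⟨f₀, hf₀⟩ := hLc (Wt N m Qf L) ((Bool × Fin L) ⊕ Unit) s S hloc
  -- the names of `c` and `d` are fixed
  have hZ : TpOn 𝔻 (Set.range Sum.inl) f₀ val := by
    have h1 := hf₀ (Sum.inr ())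
    refine ⟨?_, fun l' z hz => h1.2 l' z hz⟩
    rintro _ ⟨p, rfl⟩ _ ⟨p', rfl⟩
    refine ⟨fun h => ?_, fun h => ?_⟩
    · have h2 := h1.1 _ ⟨p, rfl⟩ _ ⟨p', rfl⟩ h
      exact congrArg val h2
    · have h2 : p = p' := Subtype.ext h
      rw [h2]
  obtain ⟨f₁, hf₁, hf₁Z, -⟩ := hB.amg (Wt N m Qf L) (Set.range Sum.inl) f₀ val ∅ hZ
  have htp₁ : ∀ ε k, tp 𝔻 (fun q => f₁ (ev L c.1 d.1 hc hd l ε k q)) =
      tp 𝔻 (Sum.elim a.1 b.1) := fun ε k =>
    (comp_of_tp hf₁ _).trans
      (tp_of_rz L c d hc hd l a b hab ε k f₀ (hf₀ (Sum.inl (ε, k))))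
  obtain ⟨f', hinj, hf'Z, hf'F, hf'T⟩ := hFRE N δ 𝔻 hB.amg (Wt N m Qf L) (Set.range Sum.inl) f₁
    (Bool × Fin L) (fun r => Set.range (ev L c.1 d.1 hc hd l r.1 r.2)) (F ∪ Qf)
    (fun r => (rz_of_tp L c d hc hd l a b hab r.1 r.2 f₁ (htp₁ r.1 r.2)).1)
    (by
      rintro _ ⟨p, rfl⟩ _ ⟨p', rfl⟩ h
      rw [hf₁Z _ ⟨p, rfl⟩, hf₁Z _ ⟨p', rfl⟩] at h
      rw [Subtype.ext (h : p.1 = p'.1)])
  have hf'q : ∀ p, f' (Sum.inl p) = p.1 := fun p => by
    rw [hf'Z _ ⟨p, rfl⟩, hf₁Z _ ⟨p, rfl⟩]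
    rfl
  have htp' : ∀ ε k, tp 𝔻 (fun q => f' (ev L c.1 d.1 hc hd l ε k q)) =
      tp 𝔻 (Sum.elim a.1 b.1) := fun ε k =>
    (tpo_comp (hf'T (ε, k)) (ev L c.1 d.1 hc hd l ε k) fun q => ⟨q, rfl⟩).symm.trans (htp₁ ε k)
  have hkk : ∀ k : Fin (L + 1), ∃ ε k', kk L ε k' = k := by
    intro k
    by_cases hk : (k : ℕ) < L
    · exact ⟨false, ⟨k, hk⟩, Fin.ext rfl⟩
    · refine ⟨true, ⟨L - 1, by omega⟩, Fin.ext ?_⟩
      have := k.2
      show L - 1 + 1 = (k : ℕ)
      omega
  have hstX : ∀ k i, st (f' (Xv L c.1 d.1 hc hd l k i)) = i := by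
    intro k i
    obtain ⟨ε, k', rfl⟩ := hkk k
    have h1 : ty 𝔻 (f' (Xv L c.1 d.1 hc hd l (kk L ε k') i)) = ty 𝔻 (a.1 i) :=
      ty_of_tp (htp' ε k') (Sum.inl i)
    rw [(hty _ _).1 h1]
    exact a.2 i
  have hstV : ∀ k i, st (f' (Vv L c.1 hc l k i)) = i := by
    intro k i
    have h1 : ty 𝔻 (f' (Vv L c.1 hc l k i)) = ty 𝔻 (b.1 i) :=
      ty_of_tp (htp' false k) (Sum.inr i)
    rw [(hty _ _).1 h1]
    exact b.2 i
  refine ⟨fun k => ⟨fun i => f' (Xv L c.1 d.1 hc hd l k i), hstX k⟩,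
    fun k => ⟨fun i => f' (Vv L c.1 hc l k i), hstV k⟩, ?_, ?_, ?_, ?_, ?_, ?_⟩
  · refine Subtype.ext (funext fun i => ?_)
    show f' (Xv L c.1 d.1 hc hd l 0 i) = c.1 i
    have h0 : ((0 : Fin (L + 1)) : ℕ) = 0 ∨ (i : ℕ) < l := Or.inl rfl
    unfold Xv
    rw [if_pos h0, hf'q]
  · refine Subtype.ext (funext fun i => ?_)
    show f' (Xv L c.1 d.1 hc hd l (Fin.last L) i) = d.1 i
    unfold Xv
    split_ifs with h1 h2
    · rcases h1 with h1 | h1
      · exfalso
        have : (Fin.last L : ℕ) = L := rfl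
        omega
      · rw [hf'q]
        exact hcd i h1
    · rw [hf'q]
    · exact absurd rfl h2
  · intro k
    refine ⟨?_, ?_⟩
    · rw [← htp' false k]
      congr 1
      funext q
      rcases q with i | i <;> rfl
    · rw [← htp' true k]
      congr 1
      funext q
      rcases q with i | i <;> rfl
  · intro k i hF
    have hF' : f' (Xv L c.1 d.1 hc hd l k i) ∈ F := hF
    show f' (Xv L c.1 d.1 hc hd l k i) = c.1 i ∨ f' (Xv L c.1 d.1 hc hd l k i) = d.1 i
    unfold Xv at hF' ⊢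
    split_ifs at hF' ⊢ with h1 h2
    · left; rw [hf'q]
    · right; rw [hf'q]
    · exact absurd (Finset.mem_union_left _ hF') (hf'F _ (by rintro ⟨p, hp⟩; cases hp))
  · intro k i hF
    have hF' : f' (Vv L c.1 hc l k i) ∈ F := hF
    by_contra hi
    unfold Vv at hF'
    rw [if_neg hi] at hF'
    exact hf'F _ (by rintro ⟨p, hp⟩; cases hp) (Finset.mem_union_left _ hF')
  · intro k k' i h
    have h1 : f' (Vv L c.1 hc l k i) = f' (Xv L c.1 d.1 hc hd l k' i) := h
    exact (Xv_eq_Vv L c d hc hd l (hinj h1).symm).2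

end Pool.Agent.H46.CH2
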